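import Pool.Agent.Work.MP_78fef3_co.L.Up
import Pool.Agent.Work.MP_78fef3_co.L.Low

namespace Pool.Agent.Results.MP_78fef3_co.LargeDegree

/-- `G` has a subgraph with at least one vertex in which every degree (counted inside the
subgraph) lies strictly between `k` and `C k`. -/
def HasQuasiregular {n : ℕ} (G : SimpleGraph (Fin n)) (k : ℕ) (C : ℝ) : Prop :=
  ∃ H : G.Subgraph, H.verts.Nonempty ∧
    ∀ x ∈ H.verts, k < (H.neighborSet x).ncard ∧ ((H.neighborSet x).ncard : ℝ) < C * k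

/-- The largest number of edges of a graph on `n` vertices with no `(k, C)`-quasiregular
subgraph. -/
noncomputable def qex (n k : ℕ) (C : ℝ) : ℕ :=
  sSup {m | ∃ G : SimpleGraph (Fin n), ¬ HasQuasiregular G k C ∧ G.edgeSet.ncard = m}

/-- For `k` large against `log n` and small against `n` the extremal number is asymptotic to
`k n log (n / k) / (1 + log C)`. -/
theorem result :
    ∀ C ε : ℝ, 1 < C → 0 < ε → ∃ K : ℝ, ∀ n k : ℕ, 1 ≤ k → K * Real.log n ≤ k → K * k ≤ n →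
      (1 - ε) * k * n * Real.log (n / k) / (1 + Real.log C) ≤ qex n k C ∧
        (qex n k C : ℝ) ≤ (1 + ε) * k * n * Real.log (n / k) / (1 + Real.log C) := by
  intro C ε hC hε
  obtain ⟨K1, h1⟩ := Pool.Agent.Work.MP_78fef3_co.L.lower hC hε
  obtain ⟨K2, h2⟩ := Pool.Agent.Work.MP_78fef3_co.L.upper hC hε
  refine ⟨max K1 K2, fun n k hk hl hn => ?_⟩
  have hl0 : 0 ≤ Real.log n := Real.log_natCast_nonneg n
  have hk0 : (0 : ℝ) ≤ k := Nat.cast_nonneg k
  obtain ⟨G, hG, hGe⟩ := h1 n k hk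
    ((mul_le_mul_of_nonneg_right (le_max_left _ _) hl0).trans hl)
    ((mul_le_mul_of_nonneg_right (le_max_left _ _) hk0).trans hn)
  have h3 := h2 n k hk
    ((mul_le_mul_of_nonneg_right (le_max_right _ _) hl0).trans hl)
    ((mul_le_mul_of_nonneg_right (le_max_right _ _) hk0).trans hn)
  have hfin : {m | ∃ G : SimpleGraph (Fin n),
      ¬ HasQuasiregular G k C ∧ G.edgeSet.ncard = m}.Finite :=
    (Set.finite_range fun G : SimpleGraph (Fin n) => G.edgeSet.ncard).subset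
      fun _ ⟨G, _, h⟩ => ⟨G, h⟩
  refine ⟨hGe.trans (Nat.cast_le.2 (le_csSup hfin.bddAbove ⟨G, hG, rfl⟩)), ?_⟩
  obtain ⟨G', hG', h⟩ := Nat.sSup_mem (s := {m | ∃ G : SimpleGraph (Fin n),
    ¬ HasQuasiregular G k C ∧ G.edgeSet.ncard = m}) ⟨_, G, hG, rfl⟩ hfin.bddAbove
  rw [qex, ← h]
  by_contra hlt
  exact hG' (h3 G' (not_le.1 hlt).le)

end Pool.Agent.Results.MP_78fef3_co.LargeDegree
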