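import Pool.Agent.Work.MP_78fef3_co.R.UpperR
import Pool.Agent.Work.MP_78fef3_co.R.LowerR
import Pool.Agent.Work.MP_78fef3_co.R.Num

namespace Pool.Agent.Results.MP_78fef3_co.RegularThreshold

/-- `G` has a subgraph with at least one vertex in which every degree (counted inside the
subgraph) lies strictly between `k` and `C k`. -/
def HasQuasiregular {n : ℕ} (G : SimpleGraph (Fin n)) (k : ℕ) (C : ℝ) : Prop :=
  ∃ H : G.Subgraph, H.verts.Nonempty ∧
    ∀ x ∈ H.verts, k < (H.neighborSet x).ncard ∧ ((H.neighborSet x).ncard : ℝ) < C * k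

/-- The largest number of edges of a graph on `n` vertices with no `(k, C)`-quasiregular
subgraph. -/
noncomputable def qex (n k : ℕ) (C : ℝ) : ℕ :=
  sSup {m | ∃ G : SimpleGraph (Fin n), ¬ HasQuasiregular G k C ∧ G.edgeSet.ncard = m}

/-- For every `k ≥ 2` and every `C` with `k + 1 < C k`, the extremal number lies between
`a n log log n` and `b n log log n` for large `n`, where one may take
`a = k ^ 2 / 2 - k / 3 - 1 / 2` and `b = k ^ 2 / 2 + k / 6`, or any positive `a` and `b` that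
satisfy the two exponential sum conditions. -/
theorem result :
    ∀ (k : ℕ) (C a b : ℝ), 2 ≤ k → (k : ℝ) + 1 < C * k →
      (a = (k : ℝ) ^ 2 / 2 - k / 3 - 1 / 2 ∨
        0 < a ∧ ∑ t ∈ Finset.range k, Real.exp (-((t : ℝ) + 1) / a) < k - 1 - 1 / k) →
      (b = (k : ℝ) ^ 2 / 2 + k / 6 ∨
        0 < b ∧ (k : ℝ) - 1 < ∑ t ∈ Finset.range k, Real.exp (-((t : ℝ) + 1) / b)) →
      ∃ n₀ : ℕ, ∀ n ≥ n₀,
        a * n * Real.log (Real.log n) ≤ qex n k C ∧
          (qex n k C : ℝ) ≤ b * n * Real.log (Real.log n) := by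
  intro k C a b hk hC ha hb
  obtain ⟨a0, a1⟩ := ha.elim (Pool.Agent.Work.MP_78fef3_co.R.num_a k hk) id
  obtain ⟨b0, b1⟩ := hb.elim (Pool.Agent.Work.MP_78fef3_co.R.num_b k hk) id
  obtain ⟨n0, hn0⟩ := Pool.Agent.Work.MP_78fef3_co.R.upperR k C hk hC b0 b1
  obtain ⟨n1, hn1⟩ := Pool.Agent.Work.MP_78fef3_co.R.lowerR C k (by omega) a0 a1
  refine ⟨n0 + n1, fun n hn => ?_⟩
  obtain ⟨G, hG, hGe⟩ := hn1 n (by omega)
  have hfin : {m | ∃ G : SimpleGraph (Fin n),
      ¬ HasQuasiregular G k C ∧ G.edgeSet.ncard = m}.Finite :=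
    (Set.finite_range fun G : SimpleGraph (Fin n) => G.edgeSet.ncard).subset
      fun _ ⟨G, _, h⟩ => ⟨G, h⟩
  refine ⟨hGe.trans (Nat.cast_le.2 (le_csSup hfin.bddAbove ⟨G, hG, rfl⟩)), ?_⟩
  obtain ⟨G', hG', h⟩ := Nat.sSup_mem (s := {m | ∃ G : SimpleGraph (Fin n),
    ¬ HasQuasiregular G k C ∧ G.edgeSet.ncard = m}) ⟨_, G, hG, rfl⟩ hfin.bddAbove
  rw [qex, ← h]
  exact hn0 n (by omega) G' hG'

end Pool.Agent.Results.MP_78fef3_co.RegularThreshold
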