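import Pool.Agent.Work.MP_78fef3_co.Z.Up

namespace Pool.Agent.Results.MP_78fef3_co.Tradeoff

/-- `G` has a subgraph with at least one vertex in which every degree (counted inside the
subgraph) lies strictly between `k` and `C k`. -/
def HasQuasiregular {n : ℕ} (G : SimpleGraph (Fin n)) (k : ℕ) (C : ℝ) : Prop :=
  ∃ H : G.Subgraph, H.verts.Nonempty ∧
    ∀ x ∈ H.verts, k < (H.neighborSet x).ncard ∧ ((H.neighborSet x).ncard : ℝ) < C * k

/-- The largest number of edges of a graph on `n` vertices with no `(k, C)`-quasiregular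
subgraph. -/
noncomputable def qex (n k : ℕ) (C : ℝ) : ℕ :=
  sSup {m | ∃ G : SimpleGraph (Fin n), ¬ HasQuasiregular G k C ∧ G.edgeSet.ncard = m}

/-- For every `k ≥ 2` let `c` be the positive root of
`∑ t = 1 .. k, exp (-t / c) = k - 1 - 1 / k`. For every `ε > 0` there are `C₀` and `K` such that
for all `C` and `n` with `C₀ ≤ C ≤ n` the extremal number lies between `((c - ε) Λ - K) n` and
`((c + ε) Λ + K) n`, where `Λ = log (log n / log C)`. -/
theorem result :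
    ∀ k : ℕ, 2 ≤ k → ∃ c : ℝ, 0 < c ∧
      ∑ t ∈ Finset.range k, Real.exp (-((t : ℝ) + 1) / c) = k - 1 - 1 / k ∧
      ∀ ε : ℝ, 0 < ε → ∃ C₀ K : ℝ, ∀ (C : ℝ) (n : ℕ), C₀ ≤ C → C ≤ n →
        ((c - ε) * Real.log (Real.log n / Real.log C) - K) * n ≤ qex n k C ∧
          (qex n k C : ℝ) ≤ ((c + ε) * Real.log (Real.log n / Real.log C) + K) * n := by
  intro k hk
  obtain ⟨c, c0, hc, h⟩ := Pool.Agent.Work.MP_78fef3_co.Z.tradeoff k hk
  refine ⟨c, c0, hc, fun ε hε => (h ε hε).imp fun C₀ h1 => h1.imp fun K h2 C n hC hn => ?_⟩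
  obtain ⟨⟨G, hG, hGe⟩, h3⟩ := h2 C n hC hn
  have hfin : {m | ∃ G : SimpleGraph (Fin n),
      ¬ HasQuasiregular G k C ∧ G.edgeSet.ncard = m}.Finite :=
    (Set.finite_range fun G : SimpleGraph (Fin n) => G.edgeSet.ncard).subset
      fun _ ⟨G, _, h⟩ => ⟨G, h⟩
  refine ⟨hGe.trans (Nat.cast_le.2 (le_csSup hfin.bddAbove ⟨G, hG, rfl⟩)), ?_⟩
  obtain ⟨G', hG', h⟩ := Nat.sSup_mem (s := {m | ∃ G : SimpleGraph (Fin n),
    ¬ HasQuasiregular G k C ∧ G.edgeSet.ncard = m}) ⟨_, G, hG, rfl⟩ hfin.bddAbove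
  rw [qex, ← h]
  exact h3 G' hG'

end Pool.Agent.Results.MP_78fef3_co.Tradeoff
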